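import Mathlib
import Pool.Agent.N250.TwoEll.Eucl

/-!
# Two ellipses form a uniqueness set for biharmonic functions on the plane

Every real-analytic `u` on `ℝ²` with `Δ² u = 0` that vanishes on two distinct ellipses vanishes
identically.

Idea of the proof. Write `2u = z̄ f(z) + g(z) + z f*(z̄) + g*(z̄)` with `f, g` entire and complexify:
`U(z, w) = w f(z) + g(z) + z f*(w) + g*(w)`. Vanishing on an ellipse `E_j` means `U(z, S_j(z)) = 0`
for large `z`, where `S_j(z) = α_j z + β_j + O(1/z)`, `|α_j| < 1`, is the Schwarz function of `E_j`.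
Subtracting the two equations and dividing by `S_1 - S_2` gives
`f(z) = - z f*[S_1, S_2] - g*[S_1, S_2]` (divided differences), which bounds `f(z)`, and then `g(z)`,
by the size of `f, g` on the smaller disc `|ζ| ≤ ε |z|`, `ε < 1`. Hence `f, g` are polynomials, and
comparing the leading coefficients and the Schwarz-Pick inequality for `α ↦ α^m` finish the proof.
-/

set_option autoImplicit false

open InnerProductSpace Laplacian Matrix

namespace Pool.Agent.Results.MP_c27a16_an.TwoEllipses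

/-- The real Euclidean plane. -/
abbrev Plane := EuclideanSpace ℝ (Fin 2)

/-- The class `H²(ℝ²)`: real-analytic functions `u` on the whole plane with `Δ² u = 0`. -/
def IsBiharmonic (u : Plane → ℝ) : Prop :=
  AnalyticOnNhd ℝ u Set.univ ∧ ∀ x, Δ (Δ u) x = 0

/-- An ellipse: `{x | (x - c)ᵀ A (x - c) = 1}` with `A` symmetric positive definite. -/
def IsEllipse (E : Set Plane) : Prop :=
  ∃ (c : Plane) (A : Matrix (Fin 2) (Fin 2) ℝ), A.PosDef ∧
    E = {x : Plane | (x - c).ofLp ⬝ᵥ (A *ᵥ (x - c).ofLp) = 1}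

open Pool.N250.TwoEll in
lemma ellipse_par {E : Set Plane} (hE : IsEllipse E) :
    ∃ c a b : ℂ, ‖b‖ < ‖a‖ ∧ iso ⁻¹' E = par c a b := by
  obtain ⟨c, A, hA, rfl⟩ := hE
  have hp : 0 < A 0 0 := hA.diag_pos
  have hsym : A 1 0 = A 0 1 := by
    have := hA.isHermitian.apply 0 1
    simpa using this
  have hdet : 0 < A 0 0 * A 1 1 - A 0 1 ^ 2 := by
    have := hA.det_pos
    rw [Matrix.det_fin_two, hsym] at this
    nlinarith
  obtain ⟨a, b, hab, hpar⟩ := exists_par (⟨c 0, c 1⟩ : ℂ) hp hdet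
  refine ⟨⟨c 0, c 1⟩, a, b, hab, ?_⟩
  rw [← hpar]
  ext z
  simp only [Set.mem_preimage, Set.mem_ofPred_eq]
  have h0 : (iso z) 0 = z.re := by simp
  have h1 : (iso z) 1 = z.im := by simp
  have e : (iso z - c).ofLp ⬝ᵥ (A *ᵥ (iso z - c).ofLp)
      = A 0 0 * (z.re - c 0) ^ 2 + 2 * A 0 1 * (z.re - c 0) * (z.im - c 1)
        + A 1 1 * (z.im - c 1) ^ 2 := by
    simp only [dotProduct, mulVec, Fin.sum_univ_two, PiLp.sub_apply, h0, h1, hsym]
    ring
  rw [e]

open Pool.N250.TwoEll in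
theorem result (u : Plane → ℝ) (hu : IsBiharmonic u) (E₁ E₂ : Set Plane) (h₁ : IsEllipse E₁)
    (h₂ : IsEllipse E₂) (hne : E₁ ≠ E₂) (hzero : ∀ x ∈ E₁ ∪ E₂, u x = 0) : ∀ x, u x = 0 := by
  obtain ⟨hua, hΔ⟩ := hu
  have huc : ContDiff ℝ ⊤ u := contDiff_omega_iff_analyticOnNhd.2 hua
  have hd2 : ContDiff ℝ 2 (fderiv ℝ (fderiv ℝ u)) :=
    (huc.fderiv_right (m := 3) le_top).fderiv_right (m := 2) (by norm_num)
  have hΔc : ContDiff ℝ 2 (Δ u) := by
    rw [laplacian_eq_iteratedFDeriv_orthonormalBasis u (EuclideanSpace.basisFun (Fin 2) ℝ)]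
    have e : (fun x => ∑ i, (iteratedFDeriv ℝ 2 u x)
        ![EuclideanSpace.basisFun (Fin 2) ℝ i, EuclideanSpace.basisFun (Fin 2) ℝ i])
        = fun x => ∑ i, (fderiv ℝ (fderiv ℝ u) x (EuclideanSpace.basisFun (Fin 2) ℝ i))
          (EuclideanSpace.basisFun (Fin 2) ℝ i) := by
      ext x
      apply Finset.sum_congr rfl
      intro i _
      rw [iteratedFDeriv_two_apply]
      rfl
    rw [e]
    fun_prop
  set v : ℂ → ℝ := fun z => u (iso z) with hv
  have hvc : ContDiff ℝ ⊤ v :=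
    huc.comp (iso.toContinuousLinearEquiv : ℂ →L[ℝ] EuclideanSpace ℝ (Fin 2)).contDiff
  have hΔv : Δ v = fun z => (Δ u) (iso z) := by
    ext z
    exact laplacian_comp_iso (huc.of_le le_top) z
  have hΔΔ : ∀ z, Δ (Δ v) z = 0 := by
    intro z
    rw [hΔv, laplacian_comp_iso hΔc z]
    exact hΔ _
  obtain ⟨f, g, hf, hg, hrep⟩ := rep hvc hΔΔ
  obtain ⟨c1, a1, b1, hab1, hp1⟩ := ellipse_par h₁
  obtain ⟨c2, a2, b2, hab2, hp2⟩ := ellipse_par h₂
  have hpne : par c1 a1 b1 ≠ par c2 a2 b2 := by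
    rw [← hp1, ← hp2]
    intro h
    exact hne (iso.surjective.preimage_injective h)
  intro x
  have hx : u x = v (iso.symm x) := by
    change u x = u (iso (iso.symm x))
    rw [LinearIsometryEquiv.apply_symm_apply]
  rw [hx, hrep]
  apply two_par hab1 hab2 hpne hf hg
  · intro z hz
    rw [← hp1] at hz
    rw [← hrep]
    exact hzero _ (Or.inl hz)
  · intro z hz
    rw [← hp2] at hz
    rw [← hrep]
    exact hzero _ (Or.inr hz)

end Pool.Agent.Results.MP_c27a16_an.TwoEllipses
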